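import Mathlib
import Pool.Agent.TH920.MA.Alg

/-!
# A singular point of a polynomial affine in two variables: the degree of its coordinates
-/

set_option autoImplicit false

namespace Pool.Agent.TH920.MB

open MvPolynomial Pool.Agent.TH314.PD Pool.Agent.TH920.MA

section defs

variable {K : Type} [CommRing K]

/-- the value of the bilinear polynomial with the coefficients `c` -/
def BF (t1 t2 : K) (c : Fin 2 → Fin 2 → K) : K :=
  c 0 0 + c 1 0 * t1 + c 0 1 * t2 + c 1 1 * t1 * t2

/-- the derivative with respect to `t1` -/
def B1 (t2 : K) (c : Fin 2 → Fin 2 → K) : K := c 1 0 + c 1 1 * t2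

/-- the derivative with respect to `t2` -/
def B2 (t1 : K) (c : Fin 2 → Fin 2 → K) : K := c 0 1 + c 1 1 * t1

/-- the eliminant -/
def De (c : Fin 2 → Fin 2 → K) : K := c 0 0 * c 1 1 - c 1 0 * c 0 1

end defs

section euler

variable {L : Type} [Field L] {n : ℕ}

theorem Bd_pdn {a b : ℕ} {f : MvPolynomial (Option (Fin n)) L} (hf : Bd a b f) (i : Fin n) :
    Bd a (b - 1) (pderiv (some i) f) := by
  intro α hα
  rw [mem_support_iff, coeff_pderiv] at hα
  have h1 : α + Finsupp.single (some i) 1 ∈ f.support := by
    rw [mem_support_iff]
    intro h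
    rw [h, zero_mul] at hα
    exact hα rfl
  have h2 := hf _ h1
  simp only [Finsupp.add_apply, Finset.sum_add_distrib] at h2
  have h3 : (Finsupp.single (some i) 1 : Option (Fin n) →₀ ℕ) none = 0 :=
    Finsupp.single_eq_of_ne (by simp)
  have h4 : ∑ l : Fin n, (Finsupp.single (some i) 1 : Option (Fin n) →₀ ℕ) (some l) = 1 := by
    rw [Finset.sum_eq_single i]
    · exact Finsupp.single_eq_same
    · intro l _ hl
      exact Finsupp.single_eq_of_ne (by simpa using hl)
    · intro h
      exact absurd (Finset.mem_univ _) h
  rw [h3, h4] at h2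
  exact ⟨h2.1, by omega⟩

theorem coeff_X_pd (f : MvPolynomial (Option (Fin n)) L) (i : Fin n) (α : Option (Fin n) →₀ ℕ) :
    coeff α (X (some i) * pderiv (some i) f) = (α (some i) : L) * coeff α f := by
  rw [coeff_X_mul', coeff_pderiv]
  by_cases h : some i ∈ α.support
  · rw [if_pos h]
    have h2 : α (some i) ≠ 0 := Finsupp.mem_support_iff.1 h
    have h3 : α - Finsupp.single (some i) 1 + Finsupp.single (some i) 1 = α := by
      apply tsub_add_cancel_of_le
      rw [Finsupp.single_le_iff]
      omega
    rw [h3]
    have h4 : (((α - Finsupp.single (some i) 1 : Option (Fin n) →₀ ℕ) (some i) : ℕ) : L) + 1 =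
        (α (some i) : L) := by
      rw [Finsupp.tsub_apply, Finsupp.single_eq_same]
      have h5 : α (some i) - 1 + 1 = α (some i) := by omega
      exact_mod_cast congrArg (fun m : ℕ => (m : L)) h5
    rw [h4]
    ring
  · rw [if_neg h]
    have h2 : α (some i) = 0 := by
      by_contra h3
      exact h (Finsupp.mem_support_iff.2 h3)
    rw [h2, Nat.cast_zero, zero_mul]

theorem Bd_euln {a b : ℕ} {f : MvPolynomial (Option (Fin n)) L} (hf : Bd a b f) :
    Bd a (b - 1) (C (b : L) * f - ∑ i : Fin n, X (some i) * pderiv (some i) f) := by
  intro α hα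
  have h1 : coeff α (C (b : L) * f - ∑ i : Fin n, X (some i) * pderiv (some i) f) =
      ((b : L) - ((∑ i : Fin n, α (some i) : ℕ) : L)) * coeff α f := by
    rw [coeff_sub, coeff_C_mul, coeff_sum, Finset.sum_congr rfl fun i _ => coeff_X_pd f i α,
      ← Finset.sum_mul, Nat.cast_sum]
    ring
  rw [mem_support_iff, h1] at hα
  have h2 : coeff α f ≠ 0 := right_ne_zero_of_mul hα
  have h3 := left_ne_zero_of_mul hα
  have h4 := hf α (mem_support_iff.2 h2)
  have h5 : ∑ i : Fin n, α (some i) ≠ b := by
    intro h
    rw [h, sub_self] at h3
    exact h3 rfl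
  exact ⟨h4.1, by omega⟩

end euler

section main

variable {L K : Type} [Field L] [Field K] [Algebra L K] {n : ℕ}

/-- the singular point of `f` -/
theorem sing_pt [CharZero K] [FiniteDimensional L K] {r q : ℕ} (hq : 0 < q)
    (f : MvPolynomial (Option (Fin n)) L) (pt : Option (Fin n) → K) (hf : Bd r q f)
    (h0 : aeval pt f = 0) (h1 : ∀ i : Fin n, aeval pt (pderiv (some i) f) = 0)
    (h2 : aeval pt (pderiv none f) ≠ 0)
    (h3 : ∀ ζ : Fin n → K, (∀ i : Fin n, ∑ j : Fin n,
      ζ j * aeval pt (pderiv (some j) (pderiv (some i) f)) = 0) → ζ = 0) :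
    Module.finrank L (IntermediateField.adjoin L (Set.range pt)) ≤
      (n + 1) * (r * (q - 1) ^ n) := by
  classical
  refine ub_adj (fun i : Option (Fin n) => match i with
      | none => C (q : L) * f - ∑ i : Fin n, X (some i) * pderiv (some i) f
      | some i => pderiv (some i) f) pt ?_ ?_ ?_
  · intro i
    cases i with
    | none => exact Bd_euln hf
    | some i => exact Bd_pdn hf i
  · intro i
    cases i with
    | none =>
      change aeval pt (C (q : L) * f - ∑ i : Fin n, X (some i) * pderiv (some i) f) = 0
      rw [map_sub, map_mul, h0, mul_zero, map_sum, zero_sub, neg_eq_zero]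
      exact Finset.sum_eq_zero fun i _ => by rw [map_mul, h1, mul_zero]
    | some i => exact h1 i
  · intro v hv
    have e1 : ∀ i : Fin n, v none * aeval pt (pderiv none (pderiv (some i) f)) +
        ∑ j : Fin n, v (some j) * aeval pt (pderiv (some j) (pderiv (some i) f)) = 0 := by
      intro i
      have := hv (some i)
      rw [Fintype.sum_option] at this
      exact this
    have e0 := hv none
    rw [Fintype.sum_option] at e0
    have d0 : aeval pt (pderiv none (C (q : L) * f -
        ∑ i : Fin n, X (some i) * pderiv (some i) f)) = (q : K) * aeval pt (pderiv none f) -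
        ∑ i : Fin n, pt (some i) * aeval pt (pderiv none (pderiv (some i) f)) := by
      rw [map_sub, pderiv_C_mul, map_sub, map_mul, aeval_C, map_natCast, map_sum, map_sum]
      congr 1
      refine Finset.sum_congr rfl fun i _ => ?_
      rw [pderiv_mul, pderiv_X_of_ne (by simp), zero_mul, zero_add, map_mul, aeval_X]
    have dj : ∀ j : Fin n, aeval pt (pderiv (some j) (C (q : L) * f -
        ∑ i : Fin n, X (some i) * pderiv (some i) f)) =
        -∑ i : Fin n, pt (some i) * aeval pt (pderiv (some j) (pderiv (some i) f)) := by
      intro j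
      rw [map_sub, pderiv_C_mul, map_sub, map_mul, h1, mul_zero, zero_sub, map_sum, map_sum]
      congr 1
      have e2 : ∀ i : Fin n, aeval pt (pderiv (some j) (X (some i) * pderiv (some i) f)) =
          pt (some i) * aeval pt (pderiv (some j) (pderiv (some i) f)) := by
        intro i
        rw [pderiv_mul, map_add, map_mul, map_mul, h1, mul_zero, zero_add, aeval_X]
      exact Finset.sum_congr rfl fun i _ => e2 i
    change v none * aeval pt (pderiv none (C (q : L) * f -
        ∑ i : Fin n, X (some i) * pderiv (some i) f)) +
      ∑ j : Fin n, v (some j) * aeval pt (pderiv (some j) (C (q : L) * f -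
        ∑ i : Fin n, X (some i) * pderiv (some i) f)) = 0 at e0
    have es : ∑ j : Fin n, v (some j) * aeval pt (pderiv (some j) (C (q : L) * f -
        ∑ i : Fin n, X (some i) * pderiv (some i) f)) = -∑ j : Fin n, v (some j) *
        ∑ i : Fin n, pt (some i) * aeval pt (pderiv (some j) (pderiv (some i) f)) := by
      rw [← Finset.sum_neg_distrib]
      exact Finset.sum_congr rfl fun j _ => by rw [dj j, mul_neg]
    rw [d0, es] at e0
    have e3 : ∑ i : Fin n, pt (some i) * (v none * aeval pt (pderiv none (pderiv (some i) f)) +
        ∑ j : Fin n, v (some j) * aeval pt (pderiv (some j) (pderiv (some i) f))) = 0 :=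
      Finset.sum_eq_zero fun i _ => by rw [e1 i, mul_zero]
    have e4 : ∑ i : Fin n, pt (some i) * (v none * aeval pt (pderiv none (pderiv (some i) f)) +
        ∑ j : Fin n, v (some j) * aeval pt (pderiv (some j) (pderiv (some i) f))) =
        v none * ∑ i : Fin n, pt (some i) * aeval pt (pderiv none (pderiv (some i) f)) +
        ∑ j : Fin n, v (some j) *
          ∑ i : Fin n, pt (some i) * aeval pt (pderiv (some j) (pderiv (some i) f)) := by
      simp only [mul_add, Finset.mul_sum, Finset.sum_add_distrib]
      congr 1
      · exact Finset.sum_congr rfl fun i _ => by ring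
      · rw [Finset.sum_comm]
        exact Finset.sum_congr rfl fun i _ => Finset.sum_congr rfl fun j _ => by ring
    rw [e4] at e3
    have e5 : v none * ((q : K) * aeval pt (pderiv none f)) = 0 := by
      linear_combination e0 + e3
    have e6 : v none = 0 := by
      rcases mul_eq_zero.1 e5 with h | h
      · exact h
      · rcases mul_eq_zero.1 h with h' | h'
        · exact absurd h' (Nat.cast_ne_zero.2 (by omega))
        · exact absurd h' h2
    have e7 : (fun j : Fin n => v (some j)) = 0 := by
      refine h3 _ fun i => ?_
      have := e1 i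
      rw [e6, zero_mul, zero_add] at this
      exact this
    funext i
    cases i with
    | none => exact e6
    | some i => exact congrFun e7 i

/-- enough equations among a finite family of equations -/
theorem fam_pt [CharZero K] [FiniteDimensional L K] {r q m : ℕ}
    (f : Fin m → MvPolynomial (Option (Fin n)) L) (pt : Option (Fin n) → K)
    (hf : ∀ i, Bd r q (f i)) (h0 : ∀ i, aeval pt (f i) = 0)
    (h3 : ∀ v : Option (Fin n) → K, (∀ i, ∑ j, v j * aeval pt (pderiv j (f i)) = 0) → v = 0) :
    Module.finrank L (IntermediateField.adjoin L (Set.range pt)) ≤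
      (n + 1) * (r * q ^ n) := by
  classical
  let φ : Fin m → (Option (Fin n) → K) := fun i j => aeval pt (pderiv j (f i))
  obtain ⟨κ, a, ha, hspan, hli⟩ := exists_linearIndependent' K φ
  have hκ : Finite κ := Finite.of_injective a ha
  have : Fintype κ := Fintype.ofFinite κ
  -- the kernel of the chosen equations is trivial
  have hker : ∀ v : Option (Fin n) → K, (∀ i : κ, ∑ j, v j * φ (a i) j = 0) → v = 0 := by
    intro v hv
    apply h3
    let T : (Option (Fin n) → K) →ₗ[K] K :=
      { toFun := fun u => ∑ j, v j * u j
        map_add' := by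
          intro x y
          rw [← Finset.sum_add_distrib]
          exact Finset.sum_congr rfl fun j _ => by rw [Pi.add_apply, mul_add]
        map_smul' := by
          intro c x
          rw [RingHom.id_apply, smul_eq_mul, Finset.mul_sum]
          exact Finset.sum_congr rfl fun j _ => by rw [Pi.smul_apply, smul_eq_mul]; ring }
    have h4 : Submodule.span K (Set.range (φ ∘ a)) ≤ LinearMap.ker T := by
      rw [Submodule.span_le]
      rintro _ ⟨i, rfl⟩
      exact hv i
    intro i
    have h5 : φ i ∈ LinearMap.ker T := by
      apply h4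
      rw [hspan]
      exact Submodule.subset_span ⟨i, rfl⟩
    exact h5
  have hc1 : Fintype.card κ ≤ Fintype.card (Option (Fin n)) := by
    have := hli.fintype_card_le_finrank
    rwa [Module.finrank_pi] at this
  have hc2 : Fintype.card (Option (Fin n)) ≤ Fintype.card κ := by
    let T : (Option (Fin n) → K) →ₗ[K] (κ → K) :=
      { toFun := fun v i => ∑ j, v j * φ (a i) j
        map_add' := by
          intro x y
          funext i
          rw [Pi.add_apply, ← Finset.sum_add_distrib]
          exact Finset.sum_congr rfl fun j _ => by rw [Pi.add_apply, add_mul]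
        map_smul' := by
          intro c x
          funext i
          rw [RingHom.id_apply, Pi.smul_apply, smul_eq_mul, Finset.mul_sum]
          exact Finset.sum_congr rfl fun j _ => by rw [Pi.smul_apply, smul_eq_mul]; ring }
    have hT : Function.Injective T := by
      rw [← LinearMap.ker_eq_bot, LinearMap.ker_eq_bot']
      intro v hv
      exact hker v fun i => congrFun hv i
    have := LinearMap.finrank_le_finrank_of_injective hT
    rwa [Module.finrank_pi, Module.finrank_pi] at this
  obtain ⟨e⟩ : Nonempty (Option (Fin n) ≃ κ) :=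
    ⟨Fintype.equivOfCardEq (le_antisymm hc2 hc1)⟩
  refine ub_adj (fun i => f (a (e i))) pt (fun i => hf _) (fun i => h0 _) fun v hv => ?_
  refine hker v fun i => ?_
  have := hv (e.symm i)
  rw [Equiv.apply_symm_apply] at this
  exact this

end main

end Pool.Agent.TH920.MB
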