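import Mathlib
import Pool.Agent.TH920.MB.Hyp

/-!
# Decomposition of polynomials affine in two of four variables
-/

set_option autoImplicit false
set_option linter.unusedSimpArgs false

namespace Pool.Agent.TH920.MB

open MvPolynomial Pool.Agent.TH314.PD

noncomputable section

/-- the last two indices -/
def em : Fin 2 → Fin 4 := ![2, 3]

theorem em_inj : Function.Injective em := by decide

theorem em_ne0 : ∀ s, (0 : Fin 4) ≠ em s := by decide

theorem em_ne1 : ∀ s, (1 : Fin 4) ≠ em s := by decide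

/-- inclusion of the polynomials in the last variables -/
def rho (σ : Equiv.Perm (Fin 4)) : MvPolynomial (Fin 2) ℂ →ₐ[ℂ] MvPolynomial (Fin 4) ℂ :=
  rename fun s => σ (em s)

/-- the polynomial with the coefficients `γ` -/
def asm (σ : Equiv.Perm (Fin 4)) (γ : Fin 2 → Fin 2 → MvPolynomial (Fin 2) ℂ) :
    MvPolynomial (Fin 4) ℂ :=
  BF (X (σ 0)) (X (σ 1)) fun i j => rho σ (γ i j)

theorem asm_add (σ : Equiv.Perm (Fin 4)) (γ γ' : Fin 2 → Fin 2 → MvPolynomial (Fin 2) ℂ) :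
    asm σ (fun i j => γ i j + γ' i j) = asm σ γ + asm σ γ' := by
  unfold asm BF
  simp only [map_add]
  ring

theorem asm_zero (σ : Equiv.Perm (Fin 4)) : asm σ (fun _ _ => 0) = 0 := by
  unfold asm BF
  simp only [map_zero]
  ring

theorem asm_mono (σ : Equiv.Perm (Fin 4)) {k : ℕ} (α : Fin 4 →₀ ℕ) (a : ℂ)
    (h0 : α (σ 0) ≤ 1) (h1 : α (σ 1) ≤ 1) (h2 : α (σ 2) + α (σ 3) ≤ k) :
    ∃ γ : Fin 2 → Fin 2 → MvPolynomial (Fin 2) ℂ,
      (∀ i j, (γ i j).totalDegree ≤ k) ∧ monomial α a = asm σ γ := by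
  have hmon : monomial α a = C a * (X (σ 0) ^ α (σ 0) * X (σ 1) ^ α (σ 1) *
      (X (σ 2) ^ α (σ 2) * X (σ 3) ^ α (σ 3)) : MvPolynomial (Fin 4) ℂ) := by
    rw [monomial_eq, Finsupp.prod_fintype _ _ (fun i => pow_zero _)]
    rw [← Equiv.prod_comp σ, Fin.prod_univ_four]
    ring
  refine ⟨fun i j => if (i : ℕ) = α (σ 0) ∧ (j : ℕ) = α (σ 1) then
    C a * (X 0 ^ α (σ 2) * X 1 ^ α (σ 3)) else 0, ?_, ?_⟩
  · intro i j
    dsimp only
    split_ifs
    · refine (totalDegree_mul _ _).trans ?_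
      rw [totalDegree_C, zero_add]
      refine (totalDegree_mul _ _).trans (le_trans (Nat.add_le_add (totalDegree_pow _ _)
        (totalDegree_pow _ _)) ?_)
      rw [totalDegree_X, totalDegree_X, mul_one, mul_one]
      exact h2
    · rw [totalDegree_zero]
      exact Nat.zero_le _
  · rw [hmon]
    have e0 : α (σ 0) = 0 ∨ α (σ 0) = 1 := by omega
    have e1 : α (σ 1) = 0 ∨ α (σ 1) = 1 := by omega
    rcases e0 with e0 | e0 <;> rcases e1 with e1 | e1 <;>
      rw [e0, e1] <;> simp [asm, BF, rho, em] <;> ring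

theorem exists_dec (σ : Equiv.Perm (Fin 4)) {k : ℕ} (g : MvPolynomial (Fin 4) ℂ)
    (hg : ∀ α ∈ g.support, α (σ 0) ≤ 1 ∧ α (σ 1) ≤ 1 ∧ α (σ 2) + α (σ 3) ≤ k) :
    ∃ γ : Fin 2 → Fin 2 → MvPolynomial (Fin 2) ℂ,
      (∀ i j, (γ i j).totalDegree ≤ k) ∧ g = asm σ γ := by
  classical
  have key : ∀ s : Finset (Fin 4 →₀ ℕ), (∀ α ∈ s, α ∈ g.support) →
      ∃ γ : Fin 2 → Fin 2 → MvPolynomial (Fin 2) ℂ,
      (∀ i j, (γ i j).totalDegree ≤ k) ∧ ∑ α ∈ s, monomial α (coeff α g) = asm σ γ := by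
    intro s
    induction s using Finset.induction_on with
    | empty =>
      intro _
      refine ⟨fun _ _ => 0, fun i j => ?_, ?_⟩
      · rw [totalDegree_zero]
        exact Nat.zero_le _
      · rw [Finset.sum_empty, asm_zero]
    | insert α s hα ih =>
      intro hs
      obtain ⟨γ, hγ1, hγ2⟩ := ih fun β hβ => hs β (Finset.mem_insert_of_mem hβ)
      have hαs := hg α (hs α (Finset.mem_insert_self _ _))
      obtain ⟨γ', hγ1', hγ2'⟩ := asm_mono σ (k := k) α (coeff α g) hαs.1 hαs.2.1 hαs.2.2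
      refine ⟨fun i j => γ' i j + γ i j, fun i j => ?_, ?_⟩
      · exact (totalDegree_add _ _).trans (max_le (hγ1' i j) (hγ1 i j))
      · rw [Finset.sum_insert hα, hγ2, hγ2', asm_add]
  obtain ⟨γ, hγ1, hγ2⟩ := key g.support fun _ h => h
  exact ⟨γ, hγ1, by rw [← hγ2]; exact g.as_sum⟩

/-- derivatives of the coefficients -/
theorem pd_rhoz (σ : Equiv.Perm (Fin 4)) (s : Fin 2) (g : MvPolynomial (Fin 2) ℂ) :
    pderiv (σ (em s)) (rho σ g) = rho σ (pderiv s g) :=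
  pderiv_rename (f := fun s => σ (em s)) (σ.injective.comp em_inj) s g

theorem pd_rho (σ : Equiv.Perm (Fin 4)) {s : Fin 4} (hs : ∀ i, em i ≠ s)
    (g : MvPolynomial (Fin 2) ℂ) : pderiv (σ s) (rho σ g) = 0 := by
  unfold rho
  induction g using MvPolynomial.induction_on with
  | C a => rw [rename_C, pderiv_C]
  | add f g hf hg => rw [map_add, map_add, hf, hg, add_zero]
  | mul_X f i hf =>
    have hσ : σ (em i) ≠ σ s := fun h => hs i (σ.injective h)
    rw [map_mul, rename_X, pderiv_mul, hf, pderiv_X_of_ne hσ, zero_mul, mul_zero, add_zero]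

theorem pd_X (σ : Equiv.Perm (Fin 4)) (s s' : Fin 4) (h : s' ≠ s) :
    pderiv (σ s) (X (σ s') : MvPolynomial (Fin 4) ℂ) = 0 :=
  pderiv_X_of_ne fun h' => h (σ.injective h')

theorem pd0_asm (σ : Equiv.Perm (Fin 4)) (γ : Fin 2 → Fin 2 → MvPolynomial (Fin 2) ℂ) :
    pderiv (σ 0) (asm σ γ) = B1 (X (σ 1)) fun i j => rho σ (γ i j) := by
  have h0 : ∀ g, pderiv (σ 0) (rho σ g) = 0 := pd_rho σ (by decide)
  have h1 := pd_X σ 0 1 (by decide)
  unfold asm BF B1
  simp only [map_add, Derivation.leibniz, smul_eq_mul, h0, h1, pderiv_X_self]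
  ring

theorem pd1_asm (σ : Equiv.Perm (Fin 4)) (γ : Fin 2 → Fin 2 → MvPolynomial (Fin 2) ℂ) :
    pderiv (σ 1) (asm σ γ) = B2 (X (σ 0)) fun i j => rho σ (γ i j) := by
  have h0 : ∀ g, pderiv (σ 1) (rho σ g) = 0 := pd_rho σ (by decide)
  have h1 := pd_X σ 1 0 (by decide)
  unfold asm BF B2
  simp only [map_add, Derivation.leibniz, smul_eq_mul, h0, h1, pderiv_X_self]
  ring

theorem pdz_asm (σ : Equiv.Perm (Fin 4)) (s : Fin 2)
    (γ : Fin 2 → Fin 2 → MvPolynomial (Fin 2) ℂ) :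
    pderiv (σ (em s)) (asm σ γ) = asm σ fun i j => pderiv s (γ i j) := by
  have h0 := pd_X σ (em s) 0 (em_ne0 s)
  have h1 := pd_X σ (em s) 1 (em_ne1 s)
  unfold asm BF
  simp only [map_add, Derivation.leibniz, smul_eq_mul, h0, h1, pd_rhoz]
  ring

/-- the mixed second derivative -/
theorem pd_01 (σ : Equiv.Perm (Fin 4)) (γ : Fin 2 → Fin 2 → MvPolynomial (Fin 2) ℂ) :
    pderiv (σ 0) (pderiv (σ 1) (asm σ γ)) = rho σ (γ 1 1) := by
  have h0 : ∀ g, pderiv (σ 0) (rho σ g) = 0 := pd_rho σ (by decide)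
  rw [pd1_asm]
  unfold B2
  simp only [map_add, Derivation.leibniz, smul_eq_mul, h0, pderiv_X_self]
  ring

/-- the pure second derivatives vanish -/
theorem pd_00 (σ : Equiv.Perm (Fin 4)) (γ : Fin 2 → Fin 2 → MvPolynomial (Fin 2) ℂ) :
    pderiv (σ 0) (pderiv (σ 0) (asm σ γ)) = 0 := by
  have h0 : ∀ g, pderiv (σ 0) (rho σ g) = 0 := pd_rho σ (by decide)
  have h1 := pd_X σ 0 1 (by decide)
  rw [pd0_asm]
  unfold B1
  simp only [map_add, Derivation.leibniz, smul_eq_mul, h0, h1]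
  ring

theorem pd_11 (σ : Equiv.Perm (Fin 4)) (γ : Fin 2 → Fin 2 → MvPolynomial (Fin 2) ℂ) :
    pderiv (σ 1) (pderiv (σ 1) (asm σ γ)) = 0 := by
  have h0 : ∀ g, pderiv (σ 1) (rho σ g) = 0 := pd_rho σ (by decide)
  have h1 := pd_X σ 1 0 (by decide)
  rw [pd1_asm]
  unfold B2
  simp only [map_add, Derivation.leibniz, smul_eq_mul, h0, h1]
  ring

end

end Pool.Agent.TH920.MB
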