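import Mathlib
import Pool.Agent.TH920.MB.Hyp

/-!
# A singular point of a polynomial affine in two variables: the bound
-/

set_option autoImplicit false

namespace Pool.Agent.TH920.MB

open MvPolynomial Pool.Agent.TH314.PD Pool.Agent.TH920.MA

variable {L K : Type} [Field L] [Field K] [Algebra L K] {n : ℕ}

theorem mem_adj (pt : Option (Fin n) → K) (f : MvPolynomial (Option (Fin n)) L) :
    aeval pt f ∈ IntermediateField.adjoin L (Set.range pt) := by
  have h6 : aeval pt f ∈ Algebra.adjoin L (Set.range pt) := by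
    rw [Algebra.adjoin_range_eq_range_aeval]
    exact ⟨f, rfl⟩
  exact IntermediateField.algebra_adjoin_le_adjoin _ _ h6

/-- **First case.** -/
theorem case1 [CharZero K] [FiniteDimensional L K] {k : ℕ} (hk : 0 < k)
    (c : Fin 2 → Fin 2 → MvPolynomial (Option (Fin n)) L)
    (hc : ∀ i j, Bd 1 k (c i j)) (pt : Option (Fin n) → K) (t1 t2 : K)
    (h0 : BF t1 t2 (fun a b => aeval pt (c a b)) = 0)
    (h1 : B1 t2 (fun a b => aeval pt (c a b)) = 0)
    (h2 : B2 t1 (fun a b => aeval pt (c a b)) = 0)
    (h4 : ∀ i : Fin n, BF t1 t2 (fun a b => aeval pt (pderiv (some i) (c a b))) = 0)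
    (h5 : BF t1 t2 (fun a b => aeval pt (pderiv none (c a b))) ≠ 0)
    (hA : aeval pt (c 1 1) ≠ 0)
    (hnd : ∀ (ξ η : K) (ζ : Fin n → K),
      aeval pt (c 1 1) * η + ∑ i : Fin n,
        B1 t2 (fun a b => aeval pt (pderiv (some i) (c a b))) * ζ i = 0 →
      aeval pt (c 1 1) * ξ + ∑ i : Fin n,
        B2 t1 (fun a b => aeval pt (pderiv (some i) (c a b))) * ζ i = 0 →
      (∀ i : Fin n, B1 t2 (fun a b => aeval pt (pderiv (some i) (c a b))) * ξ +
        B2 t1 (fun a b => aeval pt (pderiv (some i) (c a b))) * η +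
        ∑ j : Fin n, BF t1 t2 (fun a b => aeval pt (pderiv (some j) (pderiv (some i) (c a b)))) *
          ζ j = 0) → ξ = 0 ∧ η = 0 ∧ ζ = 0)
    (hgen : ∀ S : IntermediateField L K, (∀ o, pt o ∈ S) → t1 ∈ S → t2 ∈ S → S = ⊤) :
    Module.finrank L K ≤ (n + 1) * (2 * (2 * k - 1) ^ n) := by
  classical
  have hDe : Bd 2 (2 * k) (De c) := by
    have h : ∀ i j i' j', Bd 2 (2 * k) (c i j * c i' j') := fun i j i' j' =>
      ((hc i j).mul (hc i' j')).mono (by omega) (by omega)
    exact Bd_sub (h _ _ _ _) (h _ _ _ _)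
  have e10 : aeval pt (c 1 0) = -(aeval pt (c 1 1) * t2) := by
    unfold B1 at h1
    linear_combination h1
  have e01 : aeval pt (c 0 1) = -(aeval pt (c 1 1) * t1) := by
    unfold B2 at h2
    linear_combination h2
  have e00 : aeval pt (c 0 0) = aeval pt (c 1 1) * t1 * t2 := by
    unfold BF at h0
    linear_combination h0 - t1 * e10 - t2 * e01
  have v0 : aeval pt (De c) = 0 := by
    unfold De
    rw [map_sub, map_mul, map_mul, e10, e01, e00]
    ring
  have vD : ∀ D : Derivation L (MvPolynomial (Option (Fin n)) L)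
      (MvPolynomial (Option (Fin n)) L), aeval pt (D (De c)) =
      aeval pt (c 1 1) * BF t1 t2 (fun a b => aeval pt (D (c a b))) := by
    intro D
    unfold De BF
    simp only [map_sub, map_add, map_mul, Derivation.leibniz, smul_eq_mul, e10, e01, e00]
    ring
  have v2 : ∀ i j : Fin n, aeval pt (pderiv (some j) (pderiv (some i) (De c))) =
      aeval pt (c 1 1) *
        BF t1 t2 (fun a b => aeval pt (pderiv (some j) (pderiv (some i) (c a b)))) -
      (B1 t2 (fun a b => aeval pt (pderiv (some i) (c a b))) *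
        B2 t1 (fun a b => aeval pt (pderiv (some j) (c a b))) +
      B1 t2 (fun a b => aeval pt (pderiv (some j) (c a b))) *
        B2 t1 (fun a b => aeval pt (pderiv (some i) (c a b)))) := by
    intro i j
    have f1 : ∀ i : Fin n, aeval pt (pderiv (some i) (c 0 0)) =
        -(aeval pt (pderiv (some i) (c 1 0)) * t1 + aeval pt (pderiv (some i) (c 0 1)) * t2 +
          aeval pt (pderiv (some i) (c 1 1)) * t1 * t2) := by
      intro i
      have := h4 i
      unfold BF at this
      linear_combination this
    unfold De BF B1 B2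
    simp only [map_sub, map_add, map_mul, Derivation.leibniz, smul_eq_mul, e10, e01, e00, f1]
    ring
  have hfin := sing_pt (by omega) (De c) pt hDe v0 (fun i => by rw [vD, h4, mul_zero]) (by
    rw [vD]
    exact mul_ne_zero hA h5) (by
    intro ζ hζ
    have h6 := hnd (-((∑ i : Fin n, B2 t1 (fun a b => aeval pt (pderiv (some i) (c a b))) * ζ i) /
        aeval pt (c 1 1)))
      (-((∑ i : Fin n, B1 t2 (fun a b => aeval pt (pderiv (some i) (c a b))) * ζ i) /
        aeval pt (c 1 1))) ζ (by
          field_simp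
          ring) (by
          field_simp
          ring) (by
          intro i
          have h7 := hζ i
          rw [Finset.sum_congr rfl fun j _ => by rw [v2 i j]] at h7
          have h8 : ∑ j : Fin n, ζ j * (aeval pt (c 1 1) *
              BF t1 t2 (fun a b => aeval pt (pderiv (some j) (pderiv (some i) (c a b)))) -
              (B1 t2 (fun a b => aeval pt (pderiv (some i) (c a b))) *
                B2 t1 (fun a b => aeval pt (pderiv (some j) (c a b))) +
              B1 t2 (fun a b => aeval pt (pderiv (some j) (c a b))) *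
                B2 t1 (fun a b => aeval pt (pderiv (some i) (c a b))))) =
              aeval pt (c 1 1) * ∑ j : Fin n,
                BF t1 t2 (fun a b => aeval pt (pderiv (some j) (pderiv (some i) (c a b)))) * ζ j -
              B1 t2 (fun a b => aeval pt (pderiv (some i) (c a b))) *
                ∑ j : Fin n, B2 t1 (fun a b => aeval pt (pderiv (some j) (c a b))) * ζ j -
              B2 t1 (fun a b => aeval pt (pderiv (some i) (c a b))) *
                ∑ j : Fin n, B1 t2 (fun a b => aeval pt (pderiv (some j) (c a b))) * ζ j := by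
            rw [Finset.mul_sum, Finset.mul_sum, Finset.mul_sum, ← Finset.sum_sub_distrib,
              ← Finset.sum_sub_distrib]
            exact Finset.sum_congr rfl fun j _ => by ring
          rw [h8] at h7
          refine mul_left_cancel₀ hA ?_
          rw [mul_zero, ← h7]
          field_simp
          ring)
    exact h6.2.2)
  have htop : IntermediateField.adjoin L (Set.range pt) = ⊤ := by
    refine hgen _ (fun o => IntermediateField.subset_adjoin _ _ ⟨o, rfl⟩) ?_ ?_
    · have ht1 : t1 = -(aeval pt (c 0 1)) / aeval pt (c 1 1) := by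
        rw [eq_div_iff hA, e01]
        ring
      rw [ht1]
      exact div_mem (neg_mem (mem_adj pt _)) (mem_adj pt _)
    · have ht2 : t2 = -(aeval pt (c 1 0)) / aeval pt (c 1 1) := by
        rw [eq_div_iff hA, e10]
        ring
      rw [ht2]
      exact div_mem (neg_mem (mem_adj pt _)) (mem_adj pt _)
  rw [htop, IntermediateField.finrank_top'] at hfin
  exact hfin

/-- **Second case**, for two further variables. -/
theorem case2 [CharZero K] [FiniteDimensional L K] {k : ℕ}
    (c : Fin 2 → Fin 2 → MvPolynomial (Option (Fin 2)) L)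
    (hc : ∀ i j, Bd 1 k (c i j)) (pt : Option (Fin 2) → K) (t1 t2 : K)
    (h0 : BF t1 t2 (fun a b => aeval pt (c a b)) = 0)
    (h1 : B1 t2 (fun a b => aeval pt (c a b)) = 0)
    (h2 : B2 t1 (fun a b => aeval pt (c a b)) = 0)
    (h4 : ∀ i : Fin 2, BF t1 t2 (fun a b => aeval pt (pderiv (some i) (c a b))) = 0)
    (h5 : BF t1 t2 (fun a b => aeval pt (pderiv none (c a b))) ≠ 0)
    (hA : aeval pt (c 1 1) = 0)
    (hnd : ∀ (ξ η : K) (ζ : Fin 2 → K),
      aeval pt (c 1 1) * η + ∑ i : Fin 2,
        B1 t2 (fun a b => aeval pt (pderiv (some i) (c a b))) * ζ i = 0 →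
      aeval pt (c 1 1) * ξ + ∑ i : Fin 2,
        B2 t1 (fun a b => aeval pt (pderiv (some i) (c a b))) * ζ i = 0 →
      (∀ i : Fin 2, B1 t2 (fun a b => aeval pt (pderiv (some i) (c a b))) * ξ +
        B2 t1 (fun a b => aeval pt (pderiv (some i) (c a b))) * η +
        ∑ j : Fin 2, BF t1 t2 (fun a b => aeval pt (pderiv (some j) (pderiv (some i) (c a b)))) *
          ζ j = 0) → ξ = 0 ∧ η = 0 ∧ ζ = 0)
    (hgen : ∀ S : IntermediateField L K, (∀ o, pt o ∈ S) → t1 ∈ S → t2 ∈ S → S = ⊤) :
    Module.finrank L K ≤ 6 * k ^ 2 := by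
  classical
  have e10 : aeval pt (c 1 0) = 0 := by
    have h1' : aeval pt (c 1 0) + aeval pt (c 1 1) * t2 = 0 := h1
    linear_combination h1' - t2 * hA
  have e01 : aeval pt (c 0 1) = 0 := by
    have h2' : aeval pt (c 0 1) + aeval pt (c 1 1) * t1 = 0 := h2
    linear_combination h2' - t1 * hA
  have e00 : aeval pt (c 0 0) = 0 := by
    have h0' : aeval pt (c 0 0) + aeval pt (c 1 0) * t1 + aeval pt (c 0 1) * t2 +
      aeval pt (c 1 1) * t1 * t2 = 0 := h0
    linear_combination h0' - t1 * e10 - t2 * e01 - t1 * t2 * hA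
  set x : Fin 2 → K := fun i => B1 t2 (fun a b => aeval pt (pderiv (some i) (c a b))) with hx
  set y : Fin 2 → K := fun i => B2 t1 (fun a b => aeval pt (pderiv (some i) (c a b))) with hy
  -- the determinant
  have hJ : x 0 * y 1 - x 1 * y 0 ≠ 0 := by
    intro hJ
    have f1 := hnd (y 1) (-(x 1)) 0 (by rw [hA]; simp) (by rw [hA]; simp) (by
      intro i
      simp only [Pi.zero_apply, mul_zero, Finset.sum_const_zero, add_zero]
      change x i * y 1 + y i * -(x 1) = 0
      fin_cases i
      · change x 0 * y 1 + y 0 * -(x 1) = 0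
        linear_combination hJ
      · change x 1 * y 1 + y 1 * -(x 1) = 0
        ring)
    have f2 := hnd (y 0) (-(x 0)) 0 (by rw [hA]; simp) (by rw [hA]; simp) (by
      intro i
      simp only [Pi.zero_apply, mul_zero, Finset.sum_const_zero, add_zero]
      change x i * y 0 + y i * -(x 0) = 0
      fin_cases i
      · change x 0 * y 0 + y 0 * -(x 0) = 0
        ring
      · change x 1 * y 0 + y 1 * -(x 0) = 0
        linear_combination -hJ)
    have g1 : y 1 = 0 := f1.1
    have g2 : x 1 = 0 := neg_eq_zero.1 f1.2.1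
    have g3 : y 0 = 0 := f2.1
    have g4 : x 0 = 0 := neg_eq_zero.1 f2.2.1
    have f3 := hnd 1 0 0 (by rw [hA]; simp) (by rw [hA]; simp) (by
      intro i
      simp only [Pi.zero_apply, mul_zero, Finset.sum_const_zero, add_zero]
      change x i * 1 = 0
      fin_cases i
      · change x 0 * 1 = 0
        rw [g4, zero_mul]
      · change x 1 * 1 = 0
        rw [g2, zero_mul])
    exact one_ne_zero f3.1
  set K' := IntermediateField.adjoin L (Set.range pt) with hK'
  -- three of the four equations
  have hfin : Module.finrank L K' ≤ (2 + 1) * (1 * k ^ 2) := by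
    refine fam_pt (m := 4) ![c 0 0, c 1 0, c 0 1, c 1 1] pt ?_ ?_ ?_
    · intro i
      fin_cases i
      · exact hc 0 0
      · exact hc 1 0
      · exact hc 0 1
      · exact hc 1 1
    · intro i
      fin_cases i
      · exact e00
      · exact e10
      · exact e01
      · exact hA
    · intro v hv
      have g00 := hv 0
      have g10 := hv 1
      have g01 := hv 2
      have g11 := hv 3
      simp only [Matrix.cons_val_zero, Matrix.cons_val_one, Matrix.cons_val, Fintype.sum_option,
        Fin.sum_univ_two] at g00 g10 g01 g11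
      have k0 := h4 0
      have k1 := h4 1
      have hv0 : v none = 0 := by
        have h6 : v none * BF t1 t2 (fun a b => aeval pt (pderiv none (c a b))) = 0 := by
          unfold BF at k0 k1 ⊢
          linear_combination g00 + t1 * g10 + t2 * g01 + t1 * t2 * g11 - v (some 0) * k0 -
            v (some 1) * k1
        exact (mul_eq_zero.1 h6).resolve_right h5
      rw [hv0] at g00 g10 g01 g11
      have hx0 : x 0 * v (some 0) + x 1 * v (some 1) = 0 := by
        simp only [hx, B1]
        linear_combination g10 + t2 * g11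
      have hy0 : y 0 * v (some 0) + y 1 * v (some 1) = 0 := by
        simp only [hy, B2]
        linear_combination g01 + t1 * g11
      -- the two unknowns
      let W : Fin 2 → K := fun i => ∑ j : Fin 2,
        BF t1 t2 (fun a b => aeval pt (pderiv (some j) (pderiv (some i) (c a b)))) *
          (fun j : Fin 2 => v (some j)) j
      have f1 := hnd ((y 0 * W 1 - y 1 * W 0) / (x 0 * y 1 - x 1 * y 0))
        ((x 1 * W 0 - x 0 * W 1) / (x 0 * y 1 - x 1 * y 0)) (fun j => v (some j))
        (by
          rw [hA, zero_mul, zero_add, Fin.sum_univ_two]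
          exact hx0)
        (by
          rw [hA, zero_mul, zero_add, Fin.sum_univ_two]
          exact hy0)
        (by
          intro i
          change x i * ((y 0 * W 1 - y 1 * W 0) / (x 0 * y 1 - x 1 * y 0)) +
            y i * ((x 1 * W 0 - x 0 * W 1) / (x 0 * y 1 - x 1 * y 0)) + W i = 0
          have hgen' : ∀ J a b w s s' : K, J ≠ 0 → s * a + s' * b + J * w = 0 →
              s * (a / J) + s' * (b / J) + w = 0 := by
            intro J a b w s s' hJ0 hh
            have h7 : s * (a / J) + s' * (b / J) + w = (s * a + s' * b + J * w) / J := by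
              field_simp
            rw [h7, hh, zero_div]
          fin_cases i
          · exact hgen' _ _ _ _ _ _ hJ (by
              change x 0 * (y 0 * W 1 - y 1 * W 0) + y 0 * (x 1 * W 0 - x 0 * W 1) +
                (x 0 * y 1 - x 1 * y 0) * W 0 = 0
              ring)
          · exact hgen' _ _ _ _ _ _ hJ (by
              change x 1 * (y 0 * W 1 - y 1 * W 0) + y 1 * (x 1 * W 0 - x 0 * W 1) +
                (x 0 * y 1 - x 1 * y 0) * W 1 = 0
              ring))
      have f2 := f1.2.2
      funext i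
      cases i with
      | none => exact hv0
      | some i => exact congrFun f2 i
  -- the quadratic equation for `t1`
  let u : Fin 2 → Fin 2 → Fin 2 → K' := fun i a b =>
    ⟨aeval pt (pderiv (some i) (c a b)), mem_adj pt _⟩
  let P : Polynomial K' :=
    Polynomial.C (u 0 1 0 * u 1 1 1 - u 1 1 0 * u 0 1 1) * Polynomial.X ^ 2 +
    Polynomial.C (u 0 0 0 * u 1 1 1 + u 0 1 0 * u 1 0 1 - u 1 0 0 * u 0 1 1 - u 1 1 0 * u 0 0 1) *
      Polynomial.X +
    Polynomial.C (u 0 0 0 * u 1 0 1 - u 1 0 0 * u 0 0 1)
  have hu : ∀ i a b, algebraMap K' K (u i a b) = aeval pt (pderiv (some i) (c a b)) :=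
    fun i a b => rfl
  have hx' : ∀ i, x i = aeval pt (pderiv (some i) (c 1 0)) +
    aeval pt (pderiv (some i) (c 1 1)) * t2 := fun i => rfl
  have hy' : ∀ i, y i = aeval pt (pderiv (some i) (c 0 1)) +
    aeval pt (pderiv (some i) (c 1 1)) * t1 := fun i => rfl
  have k0 := h4 0
  have k1 := h4 1
  unfold BF at k0 k1
  have hP : Polynomial.aeval t1 P = 0 := by
    simp only [P, map_add, map_mul, Polynomial.aeval_C, Polynomial.aeval_X, map_pow, map_sub, hu]
    linear_combination (aeval pt (pderiv (some 1) (c 0 1)) +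
      aeval pt (pderiv (some 1) (c 1 1)) * t1) * k0 - (aeval pt (pderiv (some 0) (c 0 1)) +
      aeval pt (pderiv (some 0) (c 1 1)) * t1) * k1
  have hP0 : P ≠ 0 := by
    intro h
    have e1 := congrArg (fun Q : Polynomial K' => Q.coeff 2) h
    have e2 := congrArg (fun Q : Polynomial K' => Q.coeff 1) h
    simp only [P, Polynomial.coeff_add, Polynomial.coeff_C_mul, Polynomial.coeff_X_pow,
      Polynomial.coeff_X, Polynomial.coeff_C, Polynomial.coeff_zero] at e1 e2
    norm_num at e1 e2
    have e3 := congrArg (algebraMap K' K) e1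
    have e4 := congrArg (algebraMap K' K) e2
    simp only [map_sub, map_add, map_mul, hu, map_zero] at e3 e4
    apply hJ
    rw [hx' 0, hx' 1, hy' 0, hy' 1]
    linear_combination e4 + 2 * t1 * e3 - aeval pt (pderiv (some 1) (c 1 1)) * k0 +
      aeval pt (pderiv (some 0) (c 1 1)) * k1
  have hPd : P.natDegree ≤ 2 := Polynomial.natDegree_quadratic_le
  have hint : IsIntegral K' t1 := Algebra.IsIntegral.isIntegral t1
  have hminp : (minpoly K' t1).natDegree ≤ 2 :=
    (Polynomial.natDegree_le_of_dvd (minpoly.dvd K' t1 hP) hP0).trans hPd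
  have htop : IntermediateField.adjoin K' {t1} = ⊤ := by
    have hK'le : ∀ z ∈ K', z ∈ IntermediateField.adjoin K' {t1} := by
      intro z hz
      exact (IntermediateField.adjoin K' {t1}).algebraMap_mem ⟨z, hz⟩
    have ht1 : t1 ∈ IntermediateField.adjoin K' {t1} := IntermediateField.mem_adjoin_simple_self K' t1
    have hval : ∀ f : MvPolynomial (Option (Fin 2)) L,
        aeval pt f ∈ IntermediateField.adjoin K' {t1} := fun f => hK'le _ (mem_adj pt f)
    have ht2 : t2 ∈ IntermediateField.adjoin K' {t1} := by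
      obtain ⟨i, hi⟩ : ∃ i, y i ≠ 0 := by
        by_contra hcon
        push Not at hcon
        apply hJ
        rw [hcon 0, hcon 1]
        ring
      have h6 : t2 = -(aeval pt (pderiv (some i) (c 0 0)) +
          aeval pt (pderiv (some i) (c 1 0)) * t1) / y i := by
        rw [eq_div_iff hi, hy' i]
        have := h4 i
        unfold BF at this
        linear_combination this
      rw [h6, hy' i]
      exact div_mem (neg_mem (add_mem (hval _) (mul_mem (hval _) ht1)))
        (add_mem (hval _) (mul_mem (hval _) ht1))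
    have h7 := hgen ((IntermediateField.adjoin K' {t1}).restrictScalars L)
      (fun o => hK'le _ (IntermediateField.subset_adjoin _ _ ⟨o, rfl⟩)) ht1 ht2
    rw [eq_top_iff]
    intro z _
    have h8 : z ∈ (IntermediateField.adjoin K' {t1}).restrictScalars L := by
      rw [h7]
      exact IntermediateField.mem_top
    exact h8
  have hfin2 : Module.finrank K' K ≤ 2 := by
    have h8 := IntermediateField.adjoin.finrank hint
    rw [htop, IntermediateField.finrank_top'] at h8
    rw [h8]
    exact hminp
  have htow := Module.finrank_mul_finrank L K' K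
  calc Module.finrank L K = Module.finrank L K' * Module.finrank K' K := htow.symm
    _ ≤ ((2 + 1) * (1 * k ^ 2)) * 2 := Nat.mul_le_mul hfin hfin2
    _ = 6 * k ^ 2 := by ring

/-- **The bound.** -/
theorem main_alg2 [CharZero K] [FiniteDimensional L K] {k : ℕ} (hk : 0 < k)
    (c : Fin 2 → Fin 2 → MvPolynomial (Option (Fin 2)) L)
    (hc : ∀ i j, Bd 1 k (c i j)) (pt : Option (Fin 2) → K) (t1 t2 : K)
    (h0 : BF t1 t2 (fun a b => aeval pt (c a b)) = 0)
    (h1 : B1 t2 (fun a b => aeval pt (c a b)) = 0)
    (h2 : B2 t1 (fun a b => aeval pt (c a b)) = 0)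
    (h4 : ∀ i : Fin 2, BF t1 t2 (fun a b => aeval pt (pderiv (some i) (c a b))) = 0)
    (h5 : BF t1 t2 (fun a b => aeval pt (pderiv none (c a b))) ≠ 0)
    (hnd : ∀ (ξ η : K) (ζ : Fin 2 → K),
      aeval pt (c 1 1) * η + ∑ i : Fin 2,
        B1 t2 (fun a b => aeval pt (pderiv (some i) (c a b))) * ζ i = 0 →
      aeval pt (c 1 1) * ξ + ∑ i : Fin 2,
        B2 t1 (fun a b => aeval pt (pderiv (some i) (c a b))) * ζ i = 0 →
      (∀ i : Fin 2, B1 t2 (fun a b => aeval pt (pderiv (some i) (c a b))) * ξ +
        B2 t1 (fun a b => aeval pt (pderiv (some i) (c a b))) * η +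
        ∑ j : Fin 2, BF t1 t2 (fun a b => aeval pt (pderiv (some j) (pderiv (some i) (c a b)))) *
          ζ j = 0) → ξ = 0 ∧ η = 0 ∧ ζ = 0)
    (hgen : ∀ S : IntermediateField L K, (∀ o, pt o ∈ S) → t1 ∈ S → t2 ∈ S → S = ⊤) :
    Module.finrank L K ≤ 6 * (2 * k - 1) ^ 2 := by
  by_cases hA : aeval pt (c 1 1) = 0
  · refine (case2 c hc pt t1 t2 h0 h1 h2 h4 h5 hA hnd hgen).trans ?_
    exact Nat.mul_le_mul_left _ (Nat.pow_le_pow_left (by omega) 2)
  · refine (case1 hk c hc pt t1 t2 h0 h1 h2 h4 h5 hA hnd hgen).trans ?_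
    exact le_of_eq (by ring)

end Pool.Agent.TH920.MB
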