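import Mathlib
import Pool.Agent.TH920.MB.Hyp2
import Pool.Agent.TH920.MB.Dec
import Pool.Agent.TH920.MA.ND2
import Pool.Agent.TH314.PD.Core2

/-!
# The upper bound for the degree over the field of the ratios: two affine variables
-/

set_option autoImplicit false
set_option linter.unusedSectionVars false

namespace Pool.Agent.TH920.MB

open MvPolynomial Pool.Agent.TH314.PD Pool.Agent.TH920.MA

noncomputable section

variable {k : ℕ} {K : Type} [Field K] [Algebra ℂ K]

theorem BF_sum {m : ℕ} (t1 t2 : K) (Y : Fin m → K) (c : Fin m → Fin 2 → Fin 2 → K) :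
    ∑ j, Y j * BF t1 t2 (c j) = BF t1 t2 fun a b => ∑ j, Y j * c j a b := by
  unfold BF
  simp only [Finset.sum_mul, ← Finset.sum_add_distrib]
  refine Finset.sum_congr rfl fun j _ => ?_
  ring

theorem B1_sum {m : ℕ} (t2 : K) (Y : Fin m → K) (c : Fin m → Fin 2 → Fin 2 → K) :
    ∑ j, Y j * B1 t2 (c j) = B1 t2 fun a b => ∑ j, Y j * c j a b := by
  unfold B1
  simp only [Finset.sum_mul, ← Finset.sum_add_distrib]
  refine Finset.sum_congr rfl fun j _ => ?_
  ring

theorem B2_sum {m : ℕ} (t1 : K) (Y : Fin m → K) (c : Fin m → Fin 2 → Fin 2 → K) :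
    ∑ j, Y j * B2 t1 (c j) = B2 t1 fun a b => ∑ j, Y j * c j a b := by
  unfold B2
  simp only [Finset.sum_mul, ← Finset.sum_add_distrib]
  refine Finset.sum_congr rfl fun j _ => ?_
  ring

theorem al_BF (al : MvPolynomial (Fin 4) ℂ →ₐ[ℂ] K) (x y : MvPolynomial (Fin 4) ℂ)
    (c : Fin 2 → Fin 2 → MvPolynomial (Fin 4) ℂ) :
    al (BF x y c) = BF (al x) (al y) fun a b => al (c a b) := by
  unfold BF
  simp only [map_add, map_mul]

theorem al_B1 (al : MvPolynomial (Fin 4) ℂ →ₐ[ℂ] K) (x : MvPolynomial (Fin 4) ℂ)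
    (c : Fin 2 → Fin 2 → MvPolynomial (Fin 4) ℂ) :
    al (B1 x c) = B1 (al x) fun a b => al (c a b) := by
  unfold B1
  simp only [map_add, map_mul]

theorem al_B2 (al : MvPolynomial (Fin 4) ℂ →ₐ[ℂ] K) (x : MvPolynomial (Fin 4) ℂ)
    (c : Fin 2 → Fin 2 → MvPolynomial (Fin 4) ℂ) :
    al (B2 x c) = B2 (al x) fun a b => al (c a b) := by
  unfold B2
  simp only [map_add, map_mul]

/-- **Upper bound.** -/
theorem upper_mb [CharZero K] (al : MvPolynomial (Fin 4) ℂ →ₐ[ℂ] K) (hal : Function.Injective al)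
    (hb : IsTranscendenceBasis ℂ (fun l : Fin 4 => al (X l)))
    (hfrac : ∀ z : K, ∃ a b, z = al a / al b) (σ : Equiv.Perm (Fin 4))
    (Γ : Fin 6 → MvPolynomial (Fin 4) ℂ)
    (hΓ : ∀ j, ∀ α ∈ (Γ j).support, α (σ 0) ≤ 1 ∧ α (σ 1) ≤ 1 ∧ α (σ 2) + α (σ 3) ≤ k)
    (x : Fin 6 → K) (p : Fin 5 → MvPolynomial (Fin 6) ℂ)
    [Algebra.IsAlgebraic (LL x p) K]
    (Y : Fin 6 → K) (hY0 : Y 0 = 1) (hYc : ∀ j : Fin 5, Y j.castSucc = yy x p j)
    (hr0 : ∑ j, Y j * al (Γ j) = 0) (hr1 : ∀ l, ∑ j, Y j * al (pderiv l (Γ j)) = 0)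
    (hlast : Γ (Fin.last 5) ≠ 0) (hk : 0 < k)
    (hind : ∀ (a : K) (w : Fin 4 → K),
      (∀ j, a * al (Γ j) + ∑ l, w l * al (pderiv l (Γ j)) = 0) → a = 0 ∧ w = 0) :
    Module.finrank (LL x p) K ≤ 6 * (2 * k - 1) ^ 2 := by
  classical
  have hfd : FiniteDimensional (LL x p) K := finite_dim al hfrac (LL x p)
  set L := LL x p with hL
  let yL : Fin 5 → L := fun j => ⟨yy x p j, IntermediateField.subset_adjoin _ _ ⟨j, rfl⟩⟩
  choose γ hγ1 hγ2 using fun j => exists_dec σ (Γ j) (hΓ j)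
  let pt : Option (Fin 2) → K := fun i => match i with
    | none => Y (Fin.last 5)
    | some s => al (X (σ (em s)))
  let c : Fin 2 → Fin 2 → MvPolynomial (Option (Fin 2)) L := fun a b =>
    (∑ j : Fin 5, C (yL j) * io L (γ j.castSucc a b)) + X none * io L (γ (Fin.last 5) a b)
  have hio : ∀ g : MvPolynomial (Fin 2) ℂ, aeval pt (io L g) = al (rho σ g) := by
    intro g
    rw [aeval_io]
    have h1 : (aeval (fun l => pt (some l)) : MvPolynomial (Fin 2) ℂ →ₐ[ℂ] K) =
        al.comp (rho σ) := by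
      apply MvPolynomial.algHom_ext
      intro l
      rw [aeval_X, AlgHom.comp_apply]
      unfold rho
      rw [rename_X]
    rw [h1, AlgHom.comp_apply]
  have hsum : ∀ f : Fin 6 → MvPolynomial (Fin 2) ℂ,
      aeval pt ((∑ j : Fin 5, C (yL j) * io L (f j.castSucc)) +
        X none * io L (f (Fin.last 5))) = ∑ j, Y j * al (rho σ (f j)) := by
    intro f
    have h2 : ∀ j : Fin 5, aeval pt (C (yL j) * io L (f j.castSucc)) =
        Y j.castSucc * al (rho σ (f j.castSucc)) := by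
      intro j
      rw [map_mul, aeval_C, hio, hYc]
      rfl
    rw [map_add, map_sum, map_mul, aeval_X, hio, Finset.sum_congr rfl fun j _ => h2 j]
    exact (Fin.sum_univ_castSucc (fun j => Y j * al (rho σ (f j)))).symm
  have hc0 : ∀ a b, aeval pt (c a b) = ∑ j, Y j * al (rho σ (γ j a b)) := fun a b =>
    hsum fun j => γ j a b
  have hds : ∀ (s : Fin 2) (f : Fin 6 → MvPolynomial (Fin 2) ℂ),
      pderiv (some s) ((∑ j : Fin 5, C (yL j) * io L (f j.castSucc)) +
        X none * io L (f (Fin.last 5))) =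
      (∑ j : Fin 5, C (yL j) * io L (pderiv s (f j.castSucc))) +
        X none * io L (pderiv s (f (Fin.last 5))) := by
    intro s f
    rw [map_add, map_sum, pderiv_mul, pderiv_X_of_ne (by simp), zero_mul, zero_add, pderiv_some_io]
    congr 1
    refine Finset.sum_congr rfl fun j _ => ?_
    rw [pderiv_C_mul, pderiv_some_io]
  have hc4' : ∀ s a b, pderiv (some s) (c a b) =
      (∑ j : Fin 5, C (yL j) * io L (pderiv s (γ j.castSucc a b))) +
        X none * io L (pderiv s (γ (Fin.last 5) a b)) := fun s a b =>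
    hds s fun j => γ j a b
  have hc4 : ∀ s a b, aeval pt (pderiv (some s) (c a b)) =
      ∑ j, Y j * al (rho σ (pderiv s (γ j a b))) := by
    intro s a b
    rw [hc4']
    exact hsum fun j => pderiv s (γ j a b)
  have hc44 : ∀ s s' a b, aeval pt (pderiv (some s') (pderiv (some s) (c a b))) =
      ∑ j, Y j * al (rho σ (pderiv s' (pderiv s (γ j a b)))) := by
    intro s s' a b
    rw [hc4', hds s' fun j => pderiv s (γ j a b)]
    exact hsum fun j => pderiv s' (pderiv s (γ j a b))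
  have hcl : ∀ a b, aeval pt (pderiv none (c a b)) = al (rho σ (γ (Fin.last 5) a b)) := by
    intro a b
    have h1 : pderiv none (c a b) = io L (γ (Fin.last 5) a b) := by
      change pderiv none ((∑ j : Fin 5, C (yL j) * io L (γ j.castSucc a b)) +
        X none * io L (γ (Fin.last 5) a b)) = _
      rw [map_add, map_sum, pderiv_mul, pderiv_X_self, pderiv_none_io, mul_zero, add_zero, one_mul]
      rw [Finset.sum_eq_zero, zero_add]
      intro j _
      rw [pderiv_C_mul, pderiv_none_io, mul_zero]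
    rw [h1, hio]
  -- the equations
  have hG : ∀ j, al (Γ j) = BF (al (X (σ 0))) (al (X (σ 1)))
      fun a b => al (rho σ (γ j a b)) := by
    intro j
    conv_lhs => rw [hγ2 j]
    exact al_BF al _ _ _
  have hc01 : (fun a b => aeval pt (c a b)) = fun a b => ∑ j, Y j * al (rho σ (γ j a b)) := by
    funext a b
    exact hc0 a b
  have e0 : BF (al (X (σ 0))) (al (X (σ 1))) (fun a b => aeval pt (c a b)) = 0 := by
    rw [hc01, ← BF_sum, ← hr0]
    exact Finset.sum_congr rfl fun j _ => by rw [hG j]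
  have e1 : B1 (al (X (σ 1))) (fun a b => aeval pt (c a b)) = 0 := by
    rw [hc01, ← B1_sum, ← hr1 (σ 0)]
    refine Finset.sum_congr rfl fun j _ => ?_
    conv_rhs => rw [hγ2 j, pd0_asm, al_B1]
  have e2 : B2 (al (X (σ 0))) (fun a b => aeval pt (c a b)) = 0 := by
    rw [hc01, ← B2_sum, ← hr1 (σ 1)]
    refine Finset.sum_congr rfl fun j _ => ?_
    conv_rhs => rw [hγ2 j, pd1_asm, al_B2]
  have h41 : ∀ s, (fun a b => aeval pt (pderiv (some s) (c a b))) =
      fun a b => ∑ j, Y j * al (rho σ (pderiv s (γ j a b))) := by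
    intro s
    funext a b
    exact hc4 s a b
  have h441 : ∀ s s', (fun a b => aeval pt (pderiv (some s') (pderiv (some s) (c a b)))) =
      fun a b => ∑ j, Y j * al (rho σ (pderiv s' (pderiv s (γ j a b)))) := by
    intro s s'
    funext a b
    exact hc44 s s' a b
  have e4 : ∀ s, BF (al (X (σ 0))) (al (X (σ 1)))
      (fun a b => aeval pt (pderiv (some s) (c a b))) = 0 := by
    intro s
    rw [h41, ← BF_sum, ← hr1 (σ (em s))]
    refine Finset.sum_congr rfl fun j _ => ?_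
    conv_rhs => rw [hγ2 j, pdz_asm, asm, al_BF]
  have e5 : BF (al (X (σ 0))) (al (X (σ 1)))
      (fun a b => aeval pt (pderiv none (c a b))) ≠ 0 := by
    have h1 : (fun a b => aeval pt (pderiv none (c a b))) =
        fun a b => al (rho σ (γ (Fin.last 5) a b)) := by
      funext a b
      exact hcl a b
    rw [h1, ← hG]
    exact (map_ne_zero_iff al hal).2 hlast
  -- the matrix of the second derivatives
  have hder : ∀ δ : Derivation ℂ K K, (∀ j, δ (Y j) = 0) → δ = 0 := by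
    intro δ hδ
    refine W602.GT.der_eq_zero δ (Set.range (yy x p)) (inferInstanceAs (Algebra.IsAlgebraic (LL x p) K)) ?_
    rintro _ ⟨j, rfl⟩
    rw [← hYc j]
    exact hδ _
  let hs : Fin 4 → Fin 4 → K := fun m l => ∑ j, Y j * al (pderiv (σ m) (pderiv (σ l) (Γ j)))
  have hsymm : ∀ m l, hs m l = hs l m := by
    intro m l
    refine Finset.sum_congr rfl fun j _ => ?_
    rw [pderiv_comm']
  have h01 : hs 0 1 = aeval pt (c 1 1) := by
    rw [hc0]
    refine Finset.sum_congr rfl fun j _ => ?_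
    conv_lhs => rw [hγ2 j, pd_01]
  have h00 : hs 0 0 = 0 := by
    refine Finset.sum_eq_zero fun j _ => ?_
    rw [hγ2 j, pd_00, map_zero, mul_zero]
  have h11 : hs 1 1 = 0 := by
    refine Finset.sum_eq_zero fun j _ => ?_
    rw [hγ2 j, pd_11, map_zero, mul_zero]
  have h0z : ∀ s, hs 0 (em s) = B1 (al (X (σ 1)))
      (fun a b => aeval pt (pderiv (some s) (c a b))) := by
    intro s
    rw [h41, ← B1_sum]
    refine Finset.sum_congr rfl fun j _ => ?_
    conv_lhs => rw [hγ2 j, pdz_asm, pd0_asm, al_B1]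
  have h1z : ∀ s, hs 1 (em s) = B2 (al (X (σ 0)))
      (fun a b => aeval pt (pderiv (some s) (c a b))) := by
    intro s
    rw [h41, ← B2_sum]
    refine Finset.sum_congr rfl fun j _ => ?_
    conv_lhs => rw [hγ2 j, pdz_asm, pd1_asm, al_B2]
  have hzz : ∀ s s', hs (em s') (em s) = BF (al (X (σ 0))) (al (X (σ 1)))
      (fun a b => aeval pt (pderiv (some s') (pderiv (some s) (c a b)))) := by
    intro s s'
    rw [h441, ← BF_sum]
    refine Finset.sum_congr rfl fun j _ => ?_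
    conv_lhs => rw [hγ2 j, pdz_asm, pdz_asm, asm, al_BF]
  have hnd : ∀ (ξ η : K) (ζ : Fin 2 → K),
      aeval pt (c 1 1) * η + ∑ i : Fin 2,
        B1 (al (X (σ 1))) (fun a b => aeval pt (pderiv (some i) (c a b))) * ζ i = 0 →
      aeval pt (c 1 1) * ξ + ∑ i : Fin 2,
        B2 (al (X (σ 0))) (fun a b => aeval pt (pderiv (some i) (c a b))) * ζ i = 0 →
      (∀ i : Fin 2, B1 (al (X (σ 1))) (fun a b => aeval pt (pderiv (some i) (c a b))) * ξ +
        B2 (al (X (σ 0))) (fun a b => aeval pt (pderiv (some i) (c a b))) * η +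
        ∑ j : Fin 2, BF (al (X (σ 0))) (al (X (σ 1)))
          (fun a b => aeval pt (pderiv (some j) (pderiv (some i) (c a b)))) *
          ζ j = 0) → ξ = 0 ∧ η = 0 ∧ ζ = 0 := by
    intro ξ η ζ g0 g1 g2
    simp only [← h01, ← h0z, ← h1z, ← hzz, Fin.sum_univ_two] at g0 g1 g2
    let v : Fin 4 → K := ![ξ, η, ζ 0, ζ 1]
    have hv' : ∀ l, ∑ m, v m * hs m l = 0 := by
      intro l
      rw [Fin.sum_univ_four]
      change ξ * hs 0 l + η * hs 1 l + ζ 0 * hs 2 l + ζ 1 * hs 3 l = 0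
      have q0 : hs 0 1 * η + (hs 0 2 * ζ 0 + hs 0 3 * ζ 1) = 0 := g0
      have q1 : hs 0 1 * ξ + (hs 1 2 * ζ 0 + hs 1 3 * ζ 1) = 0 := g1
      have q2 : hs 0 2 * ξ + hs 1 2 * η + (hs 2 2 * ζ 0 + hs 3 2 * ζ 1) = 0 := g2 0
      have q3 : hs 0 3 * ξ + hs 1 3 * η + (hs 2 3 * ζ 0 + hs 3 3 * ζ 1) = 0 := g2 1
      fin_cases l
      · change ξ * hs 0 0 + η * hs 1 0 + ζ 0 * hs 2 0 + ζ 1 * hs 3 0 = 0
        rw [h00, hsymm 1 0, hsymm 2 0, hsymm 3 0]
        linear_combination q0
      · change ξ * hs 0 1 + η * hs 1 1 + ζ 0 * hs 2 1 + ζ 1 * hs 3 1 = 0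
        rw [h11, hsymm 2 1, hsymm 3 1]
        linear_combination q1
      · change ξ * hs 0 2 + η * hs 1 2 + ζ 0 * hs 2 2 + ζ 1 * hs 3 2 = 0
        linear_combination q2
      · change ξ * hs 0 3 + η * hs 1 3 + ζ 0 * hs 2 3 + ζ 1 * hs 3 3 = 0
        linear_combination q3
    have hw := nd_hess al hb Γ Y hY0 hr0 hr1 hind hder (fun m => v (σ.symm m)) (by
      intro l
      have h1 := hv' (σ.symm l)
      rw [← Equiv.sum_comp σ]
      rw [← h1]
      refine Finset.sum_congr rfl fun m _ => ?_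
      rw [Equiv.symm_apply_apply]
      change v m * ∑ j, Y j * al (pderiv (σ m) (pderiv l (Γ j))) =
        v m * ∑ j, Y j * al (pderiv (σ m) (pderiv (σ (σ.symm l)) (Γ j)))
      rw [Equiv.apply_symm_apply])
    have hv0 : ∀ m, v m = 0 := by
      intro m
      have h1 := congrFun hw (σ m)
      rw [Equiv.symm_apply_apply] at h1
      exact h1
    refine ⟨hv0 0, hv0 1, ?_⟩
    funext s
    fin_cases s
    · exact hv0 2
    · exact hv0 3
  refine main_alg2 hk c ?_ pt (al (X (σ 0))) (al (X (σ 1))) e0 e1 e2 e4 e5 hnd ?_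
  · intro a b
    refine Bd.add (Bd.sum _ fun j _ => ?_) ?_
    · exact ((Bd.C (yL j)).mul (io_Bd L (Sd_of_totalDegree (hγ1 _ _ _)))).mono
        (by omega) (by omega)
    · exact (Bd.X.mul (io_Bd L (Sd_of_totalDegree (hγ1 _ _ _)))).mono (by omega) (by omega)
  · intro S s0 s1 s2
    rw [eq_top_iff, ← adjoin_top al hfrac L, IntermediateField.adjoin_le_iff]
    rintro _ ⟨l, rfl⟩
    obtain ⟨m, rfl⟩ := σ.surjective l
    fin_cases m
    · exact s1
    · exact s2
    · exact s0 (some 0)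
    · exact s0 (some 1)

end

end Pool.Agent.TH920.MB
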