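import Mathlib
import Pool.Agent.TH314.PD.Main
import Pool.Agent.TH920.MB.Up

/-!
# Maps onto a smooth hypersurface of dimension four given by polynomials affine in two variables
(the proof follows `Pool.Agent.TH314.PD.core`, with another upper bound)
-/

set_option autoImplicit false

namespace Pool.Agent.TH920.MB

open MvPolynomial Pool.Agent.TH314.PD

noncomputable section

variable {d k : ℕ} {K : Type} [Field K] [Algebra ℂ K]

theorem core_mb (hd : 2 ≤ d) (F : MvPolynomial (Fin 6) ℂ) (hF : F.IsHomogeneous d)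
    (hsm : ∀ z : Fin 6 → ℂ, (∀ i, eval z (pderiv i F) = 0) → z = 0)
    [CharZero K] (al : MvPolynomial (Fin 4) ℂ →ₐ[ℂ] K) (hal : Function.Injective al)
    (hb : IsTranscendenceBasis ℂ (fun l : Fin 4 => al (X l)))
    (hfrac : ∀ z : K, ∃ a b, z = al a / al b)
    (σ : Equiv.Perm (Fin 4)) (G : Fin 6 → MvPolynomial (Fin 4) ℂ)
    (hG : ∀ i, ∀ α ∈ (G i).support, α (σ 0) ≤ 1 ∧ α (σ 1) ≤ 1 ∧ α (σ 2) + α (σ 3) ≤ k)
    (hk : 0 < k)
    (hFG : aeval G F = 0)
    (hdom : ∀ e (H : MvPolynomial (Fin 6) ℂ), H.IsHomogeneous e → aeval G H = 0 → F ∣ H) :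
    FiniteDimensional (ratioField (fun i => al (G i))) K ∧
      Module.finrank (ratioField (fun i => al (G i))) K * (d * (d - 1) ^ 4) ≤
        6 * (2 * k - 1) ^ 2 := by
  classical
  have hF0 : F ≠ 0 := ne_zero_of_smooth hsm
  set x : Fin 6 → K := fun i => al (G i) with hx
  have hax : ∀ H : MvPolynomial (Fin 6) ℂ, aeval x H = al (aeval G H) := by
    intro H
    have : (aeval x : MvPolynomial (Fin 6) ℂ →ₐ[ℂ] K) = al.comp (aeval G) := by
      apply MvPolynomial.algHom_ext
      intro i
      rw [aeval_X, AlgHom.comp_apply, aeval_X]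
    rw [this, AlgHom.comp_apply]
  have hFx : aeval x F = 0 := by rw [hax, hFG, map_zero]
  have hker : ∀ e (H : MvPolynomial (Fin 6) ℂ), H.IsHomogeneous e → aeval x H = 0 →
      F ∣ H := by
    intro e H hH h
    refine hdom e H hH (hal ?_)
    rw [← hax, h, map_zero]
  -- some coordinate is nonzero
  have hxb : ∃ b, x b ≠ 0 := by
    by_contra hcon
    push Not at hcon
    have h1 := hker 1 (X 0) (isHomogeneous_X _ _) (by rw [aeval_X, hcon])
    exact X_ne_zero (0 : Fin 6) (eq_zero_of_dvd hF hF0 (isHomogeneous_X ℂ _) (by omega) h1)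
  -- the form vanishing on the dual variety
  obtain ⟨m, Δ, hΔ, hΔ0, hΔξ⟩ := exists_form fun i => aeval G (pderiv i F)
  obtain ⟨c, hc⟩ : ∃ c : Fin 6 → ℂ, eval c (Δ * X 0) ≠ 0 := by
    by_contra hcon
    push Not at hcon
    have : Δ * X 0 = 0 := MvPolynomial.funext fun z => by rw [hcon, map_zero]
    rcases mul_eq_zero.1 this with h | h
    · exact hΔ0 h
    · exact X_ne_zero _ h
  rw [map_mul, eval_X] at hc
  have hcΔ : eval c Δ ≠ 0 := left_ne_zero_of_mul hc
  have hc0 : c ≠ 0 := by
    rintro rfl
    exact hc (by simp)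
  obtain ⟨R, Q, hRQ, hQR, hRc⟩ := exists_matrix c hc0
  -- the polars
  let pall : Fin 6 → MvPolynomial (Fin 6) ℂ := fun j =>
    ∑ i, C (Q j i) * pderiv i F
  have hpall : ∀ j, (pall j).IsHomogeneous (d - 1) := fun j =>
    hom_comb _ fun i => hF.pderiv
  let p : Fin 5 → MvPolynomial (Fin 6) ℂ := fun j => pall j.castSucc
  have hp : ∀ j, (p j).IsHomogeneous (d - 1) := fun j => hpall _
  have hD : 1 ≤ d - 1 := by omega
  -- their zero locus
  have hz : ∀ z : Fin 6 → ℂ, (∀ i, eval z (p i) = 0) → eval z F = 0 → z = 0 := by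
    intro z hz1 hz2
    let v : Fin 6 → ℂ := fun i => eval z (pderiv i F)
    let s : ℂ := eval z (pall (Fin.last 5))
    have hev : ∀ j, eval z (pall j) = ∑ i, Q j i * v i := by
      intro j
      change eval z (∑ i, C (Q j i) * pderiv i F) = _
      rw [map_sum]
      refine Finset.sum_congr rfl fun i _ => ?_
      rw [map_mul, eval_C]
    have hv : ∀ i, v i = s * c i := by
      intro i
      have h1 : ∑ j, R i j * (∑ l, Q j l * v l) = v i := by
        have h2 : ∑ j, R i j * (∑ l, Q j l * v l) = ∑ l, (R * Q) i l * v l := by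
          simp only [Matrix.mul_apply, Finset.sum_mul, Finset.mul_sum]
          rw [Finset.sum_comm]
          refine Finset.sum_congr rfl fun l _ => Finset.sum_congr rfl fun j _ => ?_
          ring
        rw [h2, hRQ]
        simp [Matrix.one_apply]
      rw [← h1, Fin.sum_univ_castSucc, Finset.sum_eq_zero, zero_add, ← hev, hRc]
      · ring
      · intro j _
        rw [← hev]
        have : eval z (pall j.castSucc) = 0 := hz1 j
        rw [this, mul_zero]
    have hdiv : F ∣ aeval (fun i => pderiv i F) Δ := by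
      refine hdom ((d - 1) * m) _ (hΔ.aeval _ fun i => hF.pderiv) ?_
      rw [← hΔξ]
      have : (aeval (fun i => aeval G (pderiv i F)) :
          MvPolynomial (Fin 6) ℂ →ₐ[ℂ] MvPolynomial (Fin 4) ℂ) =
          (aeval G).comp (aeval (fun i => pderiv i F)) := by
        apply MvPolynomial.algHom_ext
        intro i
        rw [aeval_X, AlgHom.comp_apply, aeval_X]
      rw [this, AlgHom.comp_apply]
    obtain ⟨B, hB⟩ := hdiv
    have h3 : eval z (aeval (fun i => pderiv i F) Δ) = 0 := by
      rw [hB, map_mul, hz2, zero_mul]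
    have h4 : eval z (aeval (fun i => pderiv i F) Δ) = aeval v Δ := by
      have : (aeval v : MvPolynomial (Fin 6) ℂ →ₐ[ℂ] ℂ) =
          (aeval z).comp (aeval (fun i => pderiv i F)) := by
        apply MvPolynomial.algHom_ext
        intro i
        rw [aeval_X, AlgHom.comp_apply, aeval_X]
        rfl
      rw [this, AlgHom.comp_apply]
      rfl
    have h5 : v = fun i => s * c i := funext hv
    rw [h4, h5, aeval_smul_form hΔ] at h3
    have h6 : s = 0 := by
      rcases mul_eq_zero.1 h3 with h | h
      · exact eq_zero_of_pow_eq_zero h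
      · exact absurd h hcΔ
    apply hsm z
    intro i
    have := hv i
    rw [h6, zero_mul] at this
    exact this
  obtain ⟨e0, hg1, hg2⟩ := gen F hF p hp hz
  have hg : Gen F p (d - 1) e0 := ⟨hg1, hg2⟩
  -- the first polar does not vanish identically
  have h0 : PP x p 0 ≠ 0 := by
    intro h
    have h1 : F ∣ p 0 := hker (d - 1) _ (hp 0) h
    have h2 : p 0 = 0 := eq_zero_of_dvd hF hF0 (hp 0) (by omega) h1
    refine comb_ne_zero hd hF hsm (fun i => Q 0 i) ?_ h2
    intro h3
    have h4 : (Q * R) 0 0 = 1 := by rw [hQR, Matrix.one_apply_eq]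
    rw [Matrix.mul_apply, Finset.sum_eq_zero] at h4
    · exact zero_ne_one h4
    · intro i _
      rw [congrFun h3 i, Pi.zero_apply, zero_mul]
  -- algebraicity
  have htr : Algebra.trdeg ℂ K = (4 : ℕ) := by
    have := hb.cardinalMk_eq_trdeg
    rw [← this, Cardinal.mk_fin]
  have halg : Algebra.IsAlgebraic (LL x p) K :=
    algebraic_LL htr hF (by omega) hF0 hker hD hg hFx h0
  have hfd : FiniteDimensional (LL x p) K := finite_dim al hfrac (LL x p)
  -- the new coordinates
  let Γ : Fin 6 → MvPolynomial (Fin 4) ℂ := fun j => ∑ i, C (R i j) * G i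
  have hΓ : ∀ j, ∀ α ∈ (Γ j).support, α (σ 0) ≤ 1 ∧ α (σ 1) ≤ 1 ∧ α (σ 2) + α (σ 3) ≤ k := by
    intro j α hα
    obtain ⟨i, _, hi⟩ := Finset.mem_biUnion.1 (MvPolynomial.support_sum hα)
    rw [C_mul'] at hi
    exact hG i α (MvPolynomial.support_smul hi)
  let Y : Fin 6 → K := fun j => aeval x (pall j) / PP x p 0
  have hY0 : Y 0 = 1 := div_self h0
  have hYc : ∀ j : Fin 5, Y j.castSucc = yy x p j := fun j => rfl
  let ξ : Fin 6 → K := fun i => aeval x (pderiv i F)
  have hYξ : ∀ j, Y j = (PP x p 0)⁻¹ * ∑ i, algebraMap ℂ K (Q j i) * ξ i := by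
    intro j
    change aeval x (∑ i, C (Q j i) * pderiv i F) / PP x p 0 = _
    rw [map_sum, div_eq_inv_mul]
    congr 1
    refine Finset.sum_congr rfl fun i _ => ?_
    rw [map_mul, aeval_C]
  have hbl : ∀ g : Fin 6 → K,
      ∑ j, Y j * (∑ l, algebraMap ℂ K (R l j) * g l) = (PP x p 0)⁻¹ * ∑ i, ξ i * g i := by
    intro g
    rw [← bilin R Q hRQ ξ g, Finset.mul_sum]
    refine Finset.sum_congr rfl fun j _ => ?_
    rw [hYξ]
    ring
  have halΓ : ∀ j, al (Γ j) = ∑ l, algebraMap ℂ K (R l j) * x l := by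
    intro j
    change al (∑ i, C (R i j) * G i) = _
    rw [map_sum]
    refine Finset.sum_congr rfl fun i _ => ?_
    rw [map_mul]
    congr 1
    exact al.commutes _
  have haldΓ : ∀ l j, al (pderiv l (Γ j)) = ∑ i, algebraMap ℂ K (R i j) * al (pderiv l (G i)) := by
    intro l j
    change al (pderiv l (∑ i, C (R i j) * G i)) = _
    rw [map_sum, map_sum]
    refine Finset.sum_congr rfl fun i _ => ?_
    rw [pderiv_C_mul, map_mul]
    congr 1
    exact al.commutes _
  have hEuler : ∀ {e : ℕ} {H : MvPolynomial (Fin 6) ℂ}, H.IsHomogeneous e →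
      ∑ i, aeval x (pderiv i H) * x i = (e : K) * aeval x H := by
    intro e H hH
    have h1 := congrArg (aeval x) hH.sum_X_mul_pderiv
    rw [map_sum, nsmul_eq_mul, map_mul, map_natCast] at h1
    rw [← h1]
    refine Finset.sum_congr rfl fun i _ => ?_
    rw [map_mul, aeval_X, mul_comm]
  have hr0 : ∑ j, Y j * al (Γ j) = 0 := by
    rw [Finset.sum_congr rfl fun j _ => by rw [halΓ j], hbl x, hEuler hF, hFx, mul_zero, mul_zero]
  have hr1 : ∀ l, ∑ j, Y j * al (pderiv l (Γ j)) = 0 := by
    intro l
    rw [Finset.sum_congr rfl fun j _ => by rw [haldΓ l j], hbl fun i => al (pderiv l (G i))]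
    have h1 := chain_rule (pderiv l) G F
    rw [hFG, map_zero] at h1
    have h2 : ∑ i, ξ i * al (pderiv l (G i)) = al (∑ i, aeval G (pderiv i F) * pderiv l (G i)) := by
      rw [map_sum]
      refine Finset.sum_congr rfl fun i _ => ?_
      rw [map_mul, ← hax]
    rw [h2, ← h1, map_zero, mul_zero]
  have hlast : Γ (Fin.last 5) ≠ 0 := by
    intro h
    let H : MvPolynomial (Fin 6) ℂ := ∑ i, C (c i) * X i
    have hH : H.IsHomogeneous 1 := hom_comb _ fun i => isHomogeneous_X _ _
    have h1 : aeval G H = 0 := by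
      rw [← h]
      change aeval G (∑ i, C (c i) * X i) = ∑ i, C (R i (Fin.last 5)) * G i
      rw [map_sum]
      refine Finset.sum_congr rfl fun i _ => ?_
      rw [map_mul, aeval_X, aeval_C, hRc]
      rfl
    have h2 : H = 0 := eq_zero_of_dvd hF hF0 hH (by omega) (hdom 1 H hH h1)
    apply hc0
    funext i
    have h3 := congrArg (eval (Pi.single i (1 : ℂ))) h2
    change eval (Pi.single i (1 : ℂ)) (∑ i, C (c i) * X i) = _ at h3
    rw [map_sum, map_zero, Finset.sum_eq_single i] at h3
    · rw [map_mul, eval_C, eval_X, Pi.single_eq_same, mul_one] at h3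
      exact h3
    · intro b _ hb
      rw [map_mul, eval_X, Pi.single_eq_of_ne hb, mul_zero]
    · intro h
      exact absurd (Finset.mem_univ _) h
  have hind : ∀ (a : K) (w : Fin 4 → K),
      (∀ j, a * al (Γ j) + ∑ l, w l * al (pderiv l (Γ j)) = 0) → a = 0 ∧ w = 0 := by
    intro a w haw
    obtain ⟨δ, hδ⟩ := exists_der' al hb w
    have h1 : ∀ i, a * x i + δ (x i) = 0 := by
      intro i
      have h2 : ∑ j, algebraMap ℂ K (Q j i) * (a * al (Γ j) + ∑ l, w l * al (pderiv l (Γ j))) = 0 :=
        Finset.sum_eq_zero fun j _ => by rw [haw j, mul_zero]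
      have h3 : ∀ j, a * al (Γ j) + ∑ l, w l * al (pderiv l (Γ j)) =
          ∑ i, algebraMap ℂ K (R i j) * (a * x i + δ (x i)) := by
        intro j
        rw [halΓ j, ← hδ (Γ j), halΓ j, map_sum, Finset.mul_sum, ← Finset.sum_add_distrib]
        refine Finset.sum_congr rfl fun i _ => ?_
        rw [Derivation.leibniz, Derivation.map_algebraMap, smul_zero, add_zero, smul_eq_mul]
        ring
      rw [Finset.sum_congr rfl fun j _ => by rw [h3 j],
        invert R Q hRQ (fun i => a * x i + δ (x i)) i] at h2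
      exact h2
    have h4 : ∀ {e : ℕ} {H : MvPolynomial (Fin 6) ℂ}, H.IsHomogeneous e →
        δ (aeval x H) = -a * ((e : K) * aeval x H) := by
      intro e H hH
      rw [chain_rule δ x H, ← hEuler hH, Finset.mul_sum]
      refine Finset.sum_congr rfl fun i _ => ?_
      have h5 : δ (x i) = -(a * x i) := by
        have := h1 i
        linear_combination this
      rw [h5]
      ring
    have h6 : δ = 0 := by
      refine W602.GT.der_eq_zero δ (Set.range (yy x p)) halg ?_
      rintro _ ⟨j, rfl⟩
      have h7 : yy x p j * PP x p 0 = PP x p j := by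
        unfold yy
        field_simp
      have h8 := congrArg δ h7
      rw [Derivation.leibniz, smul_eq_mul, smul_eq_mul] at h8
      have h9 : δ (PP x p 0) = -a * (((d - 1 : ℕ) : K) * PP x p 0) := h4 (hp 0)
      have h10 : δ (PP x p j) = -a * (((d - 1 : ℕ) : K) * PP x p j) := h4 (hp j)
      rw [h9, h10, ← h7] at h8
      have h11 : PP x p 0 * δ (yy x p j) = 0 := by linear_combination h8
      rcases mul_eq_zero.1 h11 with h | h
      · exact absurd h h0
      · exact h
    constructor
    · obtain ⟨b, hb'⟩ := hxb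
      have := h1 b
      rw [h6, Derivation.zero_apply, add_zero] at this
      rcases mul_eq_zero.1 this with h | h
      · exact h
      · exact absurd h hb'
    · funext l
      have h12 := hδ (X l)
      rw [h6, Derivation.zero_apply, Finset.sum_eq_single l] at h12
      · rw [pderiv_X_self, map_one, mul_one] at h12
        exact h12.symm
      · intro b _ hb'
        rw [pderiv_X_of_ne (Ne.symm hb'), map_zero, mul_zero]
      · intro h
        exact absurd (Finset.mem_univ _) h
  have hup : Module.finrank (LL x p) K ≤ 6 * (2 * k - 1) ^ 2 :=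
    upper_mb al hal hb hfrac σ Γ hΓ x p Y hY0 hYc hr0 hr1 hlast hk hind
  -- the intermediate field
  have hle : LL x p ≤ ratioField x := by
    unfold LL
    rw [IntermediateField.adjoin_le_iff]
    rintro _ ⟨j, rfl⟩
    exact ratio_mem x hxb (hp j) (hp 0)
  let M : IntermediateField (LL x p) K := IntermediateField.extendScalars hle
  have hMfd : FiniteDimensional (LL x p) M := inferInstance
  have hlow : d * (d - 1) ^ 4 ≤ Module.finrank (LL x p) M := by
    refine lower hD hg hFx h0 hF hker M ?_
    intro β hβ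
    rw [IntermediateField.mem_extendScalars]
    rw [Om, Finset.mem_filter] at hβ
    obtain ⟨q, hq⟩ := hβ.2
    have h1 : (monomial β (1 : ℂ)).IsHomogeneous ((d - 1) * q) := by
      apply isHomogeneous_monomial
      rw [← hq, Finsupp.degree_eq_sum]
    have h2 : ((p 0) ^ q).IsHomogeneous ((d - 1) * q) := (hp 0).pow q
    have h3 := ratio_mem x hxb h1 h2
    have h4 : om x p (d - 1) β = aeval x (monomial β (1 : ℂ)) / aeval x ((p 0) ^ q) := by
      unfold om
      rw [hq, Nat.mul_div_cancel_left _ (by omega), map_pow]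
      rfl
    rw [h4]
    exact h3
  have htow := Module.finrank_mul_finrank (LL x p) M K
  have hMK : FiniteDimensional M K := Module.Finite.right (LL x p) M K
  refine ⟨hMK, ?_⟩
  have hfin : Module.finrank (ratioField x) K = Module.finrank M K := rfl
  rw [hfin]
  refine le_trans ?_ hup
  calc Module.finrank M K * (d * (d - 1) ^ 4)
      ≤ Module.finrank M K * Module.finrank (LL x p) M := Nat.mul_le_mul_left _ hlow
    _ = Module.finrank (LL x p) K := by rw [mul_comm, htow]

end

end Pool.Agent.TH920.MB
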