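import Mathlib
import Pool.Agent.TH920.MB.Cr
import Pool.Agent.TH920.MA.Fi

/-!
# Maps affine in all but two of the parameters: final statements
-/

set_option autoImplicit false

namespace Pool.Agent.TH920.MB

open MvPolynomial Pool.Agent.TH314.PD Pool.Agent.TH920.MA

noncomputable section

variable {n N d k : ℕ}

/-- the bound in the case of four parameters -/
theorem bound_mb (hd : 2 ≤ d) (F : MvPolynomial (Fin 6) ℂ) (hF : F.IsHomogeneous d)
    (hsm : ∀ z : Fin 6 → ℂ, (∀ i, eval z (pderiv i F) = 0) → z = 0) (σ : Equiv.Perm (Fin 4))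
    (G : Fin 6 → MvPolynomial (Fin 4) ℂ)
    (hG : ∀ i, ∀ α ∈ (G i).support, α (σ 0) ≤ 1 ∧ α (σ 1) ≤ 1 ∧ α (σ 2) + α (σ 3) ≤ k)
    (hk : 0 < k)
    (hFG : aeval G F = 0)
    (hdom : ∀ e (H : MvPolynomial (Fin 6) ℂ), H.IsHomogeneous e → aeval G H = 0 → F ∣ H) :
    FiniteDimensional (ratioField fun i =>
        algebraMap (MvPolynomial (Fin 4) ℂ) (FractionRing (MvPolynomial (Fin 4) ℂ)) (G i))
        (FractionRing (MvPolynomial (Fin 4) ℂ)) ∧
      Module.finrank (ratioField fun i =>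
        algebraMap (MvPolynomial (Fin 4) ℂ) (FractionRing (MvPolynomial (Fin 4) ℂ)) (G i))
        (FractionRing (MvPolynomial (Fin 4) ℂ)) * (d * (d - 1) ^ 4) ≤
          6 * (2 * k - 1) ^ 2 := by
  have hchar : CharZero (FractionRing (MvPolynomial (Fin 4) ℂ)) := algebraRat.charZero _
  refine core_mb hd F hF hsm
    (IsScalarTower.toAlgHom ℂ (MvPolynomial (Fin 4) ℂ) (FractionRing (MvPolynomial (Fin 4) ℂ)))
    (IsFractionRing.injective (MvPolynomial (Fin 4) ℂ) (FractionRing (MvPolynomial (Fin 4) ℂ)))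
    ?_ ?_ σ G hG hk hFG hdom
  · have : Algebra.IsAlgebraic (MvPolynomial (Fin 4) ℂ) (FractionRing (MvPolynomial (Fin 4) ℂ)) :=
      (IsFractionRing.comap_isAlgebraic_iff (K := FractionRing (MvPolynomial (Fin 4) ℂ))).2
        inferInstance
    exact (IsTranscendenceBasis.mvPolynomial (Fin 4) ℂ).algebraMap_comp
      (A := FractionRing (MvPolynomial (Fin 4) ℂ))
  · intro z
    obtain ⟨a, b, h⟩ := IsFractionRing.div_surjective (A := MvPolynomial (Fin 4) ℂ) z
    exact ⟨a, b, h.2.symm⟩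

theorem exists_perm : ∀ s₁ s₂ : Fin 4, s₁ ≠ s₂ → ∃ σ : Equiv.Perm (Fin 4), σ 2 = s₁ ∧ σ 3 = s₂ := by
  intro s₁ s₂ h
  have h1 : Equiv.swap 2 s₁ s₂ ≠ 2 := by
    intro h2
    have h3 := congrArg (Equiv.swap 2 s₁) h2
    rw [Equiv.swap_apply_self, Equiv.swap_apply_left] at h3
    exact h h3.symm
  refine ⟨(Equiv.swap 3 (Equiv.swap 2 s₁ s₂)).trans (Equiv.swap 2 s₁), ?_, ?_⟩
  · rw [Equiv.trans_apply, Equiv.swap_apply_of_ne_of_ne (by decide) h1.symm,
      Equiv.swap_apply_left]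
  · rw [Equiv.trans_apply, Equiv.swap_apply_left, Equiv.swap_apply_self]

theorem numeric {m q : ℕ} (h : m * 48 + 8 ≤ 32 * q) : 8 * m ≤ (2 * q - 1) ^ 2 := by
  rcases Nat.lt_or_ge q 3 with hq | hq
  · interval_cases q <;> norm_num <;> omega
  · have h1 : 5 * (2 * q - 1) ≤ (2 * q - 1) ^ 2 := by
      rw [sq]
      exact Nat.mul_le_mul_right _ (by omega)
    omega

/-- weighted degree at most `q` -/
def Wt {M : ℕ} (w : Fin M → ℕ) (q : ℕ) (g : MvPolynomial (Fin M) ℂ) : Prop :=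
  ∀ α ∈ g.support, ∑ l, w l * α l ≤ q

theorem Wt.add {M : ℕ} {w : Fin M → ℕ} {q : ℕ} {f g : MvPolynomial (Fin M) ℂ}
    (hf : Wt w q f) (hg : Wt w q g) : Wt w q (f + g) := by
  classical
  intro α hα
  rcases Finset.mem_union.1 (MvPolynomial.support_add hα) with h | h
  · exact hf α h
  · exact hg α h

theorem Wt.sum {M : ℕ} {ι : Type} (s : Finset ι) {w : Fin M → ℕ} {q : ℕ}
    {f : ι → MvPolynomial (Fin M) ℂ} (hf : ∀ i ∈ s, Wt w q (f i)) : Wt w q (∑ i ∈ s, f i) := by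
  classical
  intro α hα
  obtain ⟨i, hi, h⟩ := Finset.mem_biUnion.1 (MvPolynomial.support_sum hα)
  exact hf i hi α h

theorem Wt.mul {M : ℕ} {w : Fin M → ℕ} {q q' : ℕ} {f g : MvPolynomial (Fin M) ℂ}
    (hf : Wt w q f) (hg : Wt w q' g) : Wt w (q + q') (f * g) := by
  classical
  intro α hα
  obtain ⟨β, hβ, γ, hγ, rfl⟩ := Finset.mem_add.1 (MvPolynomial.support_mul f g hα)
  have h1 := hf β hβ
  have h2 := hg γ hγ
  simp only [Finsupp.add_apply, mul_add, Finset.sum_add_distrib]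
  omega

theorem Wt.C {M : ℕ} (w : Fin M → ℕ) (q : ℕ) (a : ℂ) :
    Wt w q (MvPolynomial.C a : MvPolynomial (Fin M) ℂ) := by
  intro α hα
  have h1 : α = 0 := by
    have := support_monomial_subset hα
    rwa [Finset.mem_singleton] at this
  subst h1
  simp

theorem Wt.X {M : ℕ} (w : Fin M → ℕ) (s : Fin M) :
    Wt w (w s) (MvPolynomial.X s : MvPolynomial (Fin M) ℂ) := by
  intro α hα
  have h1 : α = Finsupp.single s 1 := by
    have := support_monomial_subset hα
    rwa [Finset.mem_singleton] at this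
  subst h1
  rw [Finset.sum_eq_single s]
  · simp
  · intro l _ hl
    rw [Finsupp.single_eq_of_ne hl, mul_zero]
  · intro h
    exact absurd (Finset.mem_univ _) h

theorem Wt.pow {M : ℕ} {w : Fin M → ℕ} {q : ℕ} {f : MvPolynomial (Fin M) ℂ}
    (hf : Wt w q f) (m : ℕ) : Wt w (m * q) (f ^ m) := by
  induction m with
  | zero =>
    rw [pow_zero, ← C_1]
    exact Wt.C _ _ _
  | succ m ih =>
    rw [pow_succ, Nat.succ_mul]
    exact ih.mul hf

theorem Wt.prod {M : ℕ} {ι : Type} (s : Finset ι) {w : Fin M → ℕ} {q : ι → ℕ}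
    {f : ι → MvPolynomial (Fin M) ℂ} (hf : ∀ i ∈ s, Wt w (q i) (f i)) :
    Wt w (∑ i ∈ s, q i) (∏ i ∈ s, f i) := by
  classical
  induction s using Finset.induction_on with
  | empty =>
    rw [Finset.prod_empty, Finset.sum_empty, ← C_1]
    exact Wt.C _ _ _
  | insert i s hi ih =>
    rw [Finset.prod_insert hi, Finset.sum_insert hi]
    exact (hf i (Finset.mem_insert_self _ _)).mul
      (ih fun j hj => hf j (Finset.mem_insert_of_mem hj))

theorem Wt.mono {M : ℕ} {w : Fin M → ℕ} {q q' : ℕ} {f : MvPolynomial (Fin M) ℂ}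
    (hf : Wt w q f) (h : q ≤ q') : Wt w q' f := fun α hα => (hf α hα).trans h

/-- weighted degrees of a restriction to a coordinate subspace -/
theorem slice_wt (f : Fin n → Fin N) (c : Fin N → ℂ)
    (w : Fin N → ℕ) {q : ℕ} {g : MvPolynomial (Fin N) ℂ} (hg : Wt w q g) :
    Wt (fun s => w (f s)) q (aeval (sub c (ind f)) g) := by
  classical
  rw [g.as_sum, map_sum]
  refine Wt.sum _ fun α hα => ?_
  rw [aeval_monomial, algebraMap_eq, Finsupp.prod_fintype _ _ (fun _ => pow_zero _)]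
  have h1 : ∀ l, Wt (fun s => w (f s)) (w l) (sub c (ind f) l) := by
    intro l
    rw [sub_ind]
    refine (Wt.C _ _ _).add (Wt.sum _ fun s _ => ?_)
    by_cases h : f s = l
    · rw [if_pos h]
      have := Wt.X (fun s => w (f s)) s
      simp only [h] at this
      exact this
    · rw [if_neg h, ← C_0]
      exact Wt.C _ _ _
  have h2 : Wt (fun s => w (f s)) (0 + ∑ l, α l * w l)
      (C (coeff α g) * ∏ l, sub c (ind f) l ^ α l) :=
    (Wt.C _ 0 _).mul (Wt.prod _ fun l _ => (h1 l).pow _)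
  refine h2.mono ?_
  rw [zero_add]
  have h3 := hg α hα
  calc ∑ l, α l * w l = ∑ l, w l * α l := Finset.sum_congr rfl fun l _ => mul_comm _ _
    _ ≤ q := h3

end

end Pool.Agent.TH920.MB
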